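import Pool.Agent.V1198.SickProd

/-!
# MP_1eaa31_an, Q1: sick products of two infinite compacta are metrizable
-/

set_option autoImplicit false

namespace Pool.Agent.Results.MP_1eaa31_an.Metrizable

open Pool.Agent.V1198.BL Pool.Agent.V1198.SK

/-- **Theorem.** If `K` and `L` are infinite compact Hausdorff spaces and `K × L` is sick, then
`K × L` is metrizable. -/
theorem result : ∀ (K L : Type) [TopologicalSpace K] [CompactSpace K] [T2Space K] [Infinite K]
    [TopologicalSpace L] [CompactSpace L] [T2Space L] [Infinite L],
    Sick (K × L) → TopologicalSpace.MetrizableSpace (K × L) := by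
  intro K L _ _ _ _ _ _ _ _ h
  exact metrizable_prod h

end Pool.Agent.Results.MP_1eaa31_an.Metrizable
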